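import Pool.Agent.Helper489.SepMain
import Pool.Agent.Helper489.SepD3

/-!
`s(n, 𝒮^d)` for simple `d`-polytopes: it is at most `n`, equal to `n` for all
`n ≥ (d-2) 2^(d-1) + 2`, larger than `n - 2^(d-2)` for all `n ≥ 2^(d-1)`, and for `d = 3` it is
`4` for `n = 4, 5` and `n` for all `n ≥ 6`.
-/

set_option autoImplicit false

namespace Pool.Agent.Results.MP_3f7fac_co.SimpleSeparability

open Pool.Agent.Helper489.Sep

theorem result :
    (∀ d n k : ℕ, 2 ≤ d → 1 ≤ n → k ∈ sepVals n d → k ≤ n) ∧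
    (∀ d n : ℕ, 2 ≤ d → (d - 2) * 2 ^ (d - 1) + 2 ≤ n → IsGreatest (sepVals n d) n) ∧
    (∀ d n : ℕ, 2 ≤ d → 2 ^ (d - 1) ≤ n →
      ∃ k, IsGreatest (sepVals n d) k ∧ n < k + 2 ^ (d - 2)) ∧
    (IsGreatest (sepVals 4 3) 4 ∧ IsGreatest (sepVals 5 3) 4 ∧
      ∀ n : ℕ, 6 ≤ n → IsGreatest (sepVals n 3) n) := by
  have hub : ∀ d n k : ℕ, 2 ≤ d → 1 ≤ n → k ∈ sepVals n d → k ≤ n :=
    fun d n k hd hn hk => upper_bound (by omega) hn hk
  have hlarge : ∀ d n : ℕ, 2 ≤ d → (d - 2) * 2 ^ (d - 1) + 2 ≤ n →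
      IsGreatest (sepVals n d) n := by
    intro d n hd hn
    obtain ⟨C, hC⟩ := exists_cert d hd n hn
    exact C.isGreatest (by omega) n (by omega) hC
  have hmem : ∀ d n : ℕ, 2 ≤ d → 2 ^ (d - 1) ≤ n →
      (n / 2 ^ (d - 2)) * 2 ^ (d - 2) ∈ sepVals n d := by
    intro d n hd hn
    obtain ⟨q, hq⟩ : ∃ q : ℕ, q = 2 ^ (d - 2) := ⟨_, rfl⟩
    have hq1 : 1 ≤ q := by rw [hq]; exact Nat.one_le_two_pow
    have hq2 : 2 ^ (d - 1) = 2 * q := by
      rw [hq, ← pow_succ']; congr 1; omega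
    have hq3 : 2 ^ d = 4 * q := by
      have : d = (d - 2) + 2 := by omega
      rw [this, pow_add, hq]; simp; ring
    rw [← hq]
    rw [hq2] at hn
    have ha : 2 ≤ n / q := (Nat.le_div_iff_mul_le (by omega)).2 hn
    obtain ⟨C, hC⟩ := exists_cert_mul d hd (n / q) ha
    rw [← hq] at hC
    have h1 : n / q * q + n % q = n := Nat.div_add_mod' n q
    have h2 : n % q < q := Nat.mod_lt _ (by omega)
    have h3 : 1 ≤ n / q * q := Nat.mul_pos (by omega) (by omega)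
    have h4 := C.extra (by omega) (n / q * q) h3 hC (n % q) (by omega)
    rwa [h1] at h4
  have hgap : ∀ d n : ℕ, 2 ≤ d → 2 ^ (d - 1) ≤ n →
      ∃ k, IsGreatest (sepVals n d) k ∧ n < k + 2 ^ (d - 2) := by
    intro d n hd hn
    have h1 := hmem d n hd hn
    have hn1 : 1 ≤ n := le_trans Nat.one_le_two_pow hn
    have hbd : BddAbove (sepVals n d) := ⟨n, fun k hk => hub d n k hd hn1 hk⟩
    refine ⟨sSup (sepVals n d), ⟨Nat.sSup_mem ⟨_, h1⟩ hbd, fun k hk => le_csSup hbd hk⟩, ?_⟩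
    have h2 : n / 2 ^ (d - 2) * 2 ^ (d - 2) ≤ sSup (sepVals n d) := le_csSup hbd h1
    have h3 : n / 2 ^ (d - 2) * 2 ^ (d - 2) + n % 2 ^ (d - 2) = n := Nat.div_add_mod' n _
    have h4 : n % 2 ^ (d - 2) < 2 ^ (d - 2) := Nat.mod_lt _ (by positivity)
    omega
  refine ⟨hub, hlarge, hgap, ?_, ?_, ?_⟩
  · obtain ⟨C, hC⟩ := exists_cert_mul 3 (by norm_num) 2 le_rfl
    exact C.isGreatest (by norm_num) 4 (by norm_num) hC
  · obtain ⟨C, hC⟩ := exists_cert_mul 3 (by norm_num) 2 le_rfl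
    refine ⟨C.extra (by norm_num) 4 (by norm_num) hC 1 (by norm_num), fun k hk => ?_⟩
    have h1 := hub 3 5 k (by norm_num) (by norm_num) hk
    rcases Nat.lt_or_ge k 5 with h2 | h2
    · omega
    · exfalso
      have h3 : k = 5 := by omega
      subst h3
      obtain ⟨P, hP, M, N, hM, hsep, hN⟩ := hk
      exact no_five P hP M N hsep hM hN
  · intro n hn
    exact hlarge 3 n (by norm_num) (by norm_num; exact hn)

end Pool.Agent.Results.MP_3f7fac_co.SimpleSeparability
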